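import Pool.Agent.Run7.h929.IG.Fin

/-!
# From `F_p(X)` to all global function fields and beyond, without extension of the constants

Let `κ` be a finite field (for example `F_p`). If every finite group is a Galois group over `κ(X)`,
then every finite group is a Galois group over every extension `E` of `κ(X)` for which the elements
algebraic over `κ(X)` form a finite extension of `κ(X)` (all finite extensions of `κ(X)`; also, by a
classical fact which is not used here, all finitely generated extensions). More precisely, let `M`
be an extension of `E` with this property. Then there is a Galois extension `L` of `E` with the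
given group which has the same constants as `E` and is linearly disjoint from `M` over `E`. For one
group `G` it is enough that a certain power `G^k` occurs over `κ(X)`.

Proof. Let `n` be the degree over `κ(X)` of the field `E₀` of the elements of `E` which are
algebraic over `κ(X)`, and `Q = q^((n |G|)!)`, `q = |κ|`. Enlarge `M` by the roots of `X^Q - X`; the
field `M₀` of the elements of `M` algebraic over `κ(X)` remains finite (Artin's lemma). Let
`[M₀ : κ(X)] < 2^k` and let `Λ` be an extension of `κ(X)` with group `G^k`, in an algebraic closure
of `M`. The group of `Λ` over `Λ ∩ M` has index less than `2^k` in `G^k`, and such a subgroup is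
mapped onto `G` by one of the `k` projections. So one of the `k` extensions `F` of `κ(X)` with group
`G` inside `Λ` is linearly disjoint from `M` over `κ(X)`, and `L = E F` is linearly disjoint from
`M` over `E`. Let `y` be an element of `L` which is algebraic over `κ`. The field `L₀` of the
elements of `L` algebraic over `κ(X)` has a degree of at most `n |G|`, and the minimal polynomial of
`y` over `κ` remains irreducible over `κ(X)` (Gauss' lemma). So `y^Q = y`, hence `y` is in
`L ∩ M = E`.
-/

set_option autoImplicit false

open Module
open scoped TensorProduct

namespace Pool.Agent.Results.MP_7f581e_nt.AllGlobalFunctionFields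

/-- `G` occurs over the field `K`: it is the group of a finite Galois extension of `K`. -/
def Occurs (K G : Type) [Field K] [Group G] : Prop :=
  ∃ (L : Type) (_ : Field L) (_ : Algebra K L), FiniteDimensional K L ∧ IsGalois K L ∧
    Nonempty ((L ≃ₐ[K] L) ≃* G)

/-- `G` occurs over `E` in the strong form with respect to the extension `M` of `E`: it is the group
of a finite Galois extension `L` of `E` such that
* `M ⊗ L` (tensor product over `E`) is a field: `L` and `M` are linearly disjoint over `E`;
* all elements `y` of `L` which are algebraic over the prime field, that is, `y ^ n = y` for some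
  `n ≥ 2`, are in `E`: `L` has the same constants as `E`. -/
def OccursStrongly (E M G : Type) [Field E] [Field M] [Algebra E M] [Group G] : Prop :=
  ∃ (L : Type) (_ : Field L) (_ : Algebra E L), FiniteDimensional E L ∧ IsGalois E L ∧
    Nonempty ((L ≃ₐ[E] L) ≃* G) ∧ IsField (M ⊗[E] L) ∧
    ∀ (y : L) (n : ℕ), 2 ≤ n → y ^ n = y → y ∈ Set.range (algebraMap E L)

/-- Every finite group `G` occurs strongly over every extension `E` of `κ(X)`, with respect to every
extension `M` of `E` such that the elements of `M` which are algebraic over `κ(X)` form a finite
extension of `κ(X)`. -/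
def StrongEverywhere (κ : Type) [Field κ] : Prop :=
  ∀ (E M G : Type) [Field E] [Field M] [Group G] [Finite G] [Algebra (RatFunc κ) E] [Algebra E M]
    [Algebra (RatFunc κ) M] [IsScalarTower (RatFunc κ) E M]
    [FiniteDimensional (RatFunc κ) (algebraicClosure (RatFunc κ) M)], OccursStrongly E M G

/-- (1) For all extensions `E` of `κ(X)` and `M` of `E` as in `StrongEverywhere` and all finite
groups `G` there is a `k` such that `G` occurs strongly over `E` with respect to `M` if the power
`G^k` occurs over `κ(X)`.
(2) If every finite group occurs over `κ(X)`, then all of them occur strongly over all these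
extensions of `κ(X)`, and conversely.
(3) So this strong statement for all prime fields `κ` is equivalent to Q1. -/
theorem result :
    (∀ (κ : Type) [Field κ] [Finite κ] (E M G : Type) [Field E] [Field M] [Group G] [Finite G]
      [Algebra (RatFunc κ) E] [Algebra E M] [Algebra (RatFunc κ) M]
      [IsScalarTower (RatFunc κ) E M]
      [FiniteDimensional (RatFunc κ) (algebraicClosure (RatFunc κ) M)],
      ∃ k : ℕ, Occurs (RatFunc κ) (Fin k → G) → OccursStrongly E M G) ∧
    (∀ (κ : Type) [Field κ] [Finite κ],
      (∀ (G : Type) [Group G] [Finite G], Occurs (RatFunc κ) G) ↔ StrongEverywhere κ) ∧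
    ((∀ (p : ℕ) [Fact p.Prime] (G : Type) [Group G] [Finite G], Occurs (RatFunc (ZMod p)) G) ↔
      ∀ (p : ℕ) [Fact p.Prime], StrongEverywhere (ZMod p)) := by
  have h1 : ∀ (κ : Type) [Field κ] [Finite κ] (E M G : Type) [Field E] [Field M] [Group G]
      [Finite G] [Algebra (RatFunc κ) E] [Algebra E M] [Algebra (RatFunc κ) M]
      [IsScalarTower (RatFunc κ) E M]
      [FiniteDimensional (RatFunc κ) (algebraicClosure (RatFunc κ) M)],
      ∃ k : ℕ, Occurs (RatFunc κ) (Fin k → G) → OccursStrongly E M G := by
    intro κ _ _ E M G _ _ _ _ _ _ _ _ _
    exact Run7.h929.IG.strong_gen (κ := κ) (E := E) (M := M) (G := G)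
  have h2 : ∀ (κ : Type) [Field κ] [Finite κ],
      (∀ (G : Type) [Group G] [Finite G], Occurs (RatFunc κ) G) ↔ StrongEverywhere κ := by
    intro κ _ _
    constructor
    · intro h E M G _ _ _ _ _ _ _ _ _
      obtain ⟨k, hk⟩ := h1 κ E M G
      exact hk (h (Fin k → G))
    · intro h G _ _
      obtain ⟨L, _, _, h3, h4, h5, -, -⟩ := h (RatFunc κ) (RatFunc κ) G
      exact ⟨L, inferInstance, inferInstance, h3, h4, h5⟩
  exact ⟨h1, h2, ⟨fun h p _ => (h2 (ZMod p)).1 (fun G _ _ => h p G),
    fun h p _ => (h2 (ZMod p)).2 (h p)⟩⟩

end Pool.Agent.Results.MP_7f581e_nt.AllGlobalFunctionFields
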