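import Mathlib
import Pool.Agent.Run7.h456.IG.FF

/-!
# The inverse Galois problem over `k(X)`, `k` a finite field, and conditions on all decomposition
groups

Let `k` be a finite field of characteristic `p` (for example `F_p`) and `K = k(X)`.  For every
finite group `G` and every `s` there is a finite cover `π : H → G` with abelian kernel such that,
whenever a finite Galois extension `L` of `K` has Galois group `H`, the subextension `F` with
group `G` given by `π` satisfies, for ALL places of `F` (valuation rings `V ≠ F` of `F`):

* for every prime number `l ≠ p` the Sylow `l`-subgroups of the decomposition group of `V` are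
  cyclic;
* if a prime number `l ≠ p` divides the order of the inertia group of `V`, then `l ^ s` divides
  `N ^ n - 1`, where `N` is the order of the residue field of the place of `K` below and `n = |G|`.

Hence every finite group is a Galois group over `K` if and only if every finite group is the Galois
group of such an extension of `K`, for all `s`, in which moreover all places over the places of `K`
with at most `B` residue classes are tamely unramified (their inertia groups are `p`-groups), `B`
any given number.

The cover is the group `Cov G m`, `m = |G| ^ (s + 3)`, of the pairs `(v, g)`, `g ∈ G`, `v` a family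
`(v x)`, `x ∈ G`, of elements of the group ring of `G` over `ZMod m` with
`∑ x, (x - 1) v x = g - 1`.  Its properties (the orders of elements grow; metacyclic subgroups of
prime power order have cyclic images in `G`) are proved in `Pool/Agent/Run7/h456/IG`, see the
outline in `Pool/Agent/Results/MP_dadaab_nt/TotallyRealForFree.lean`.  A place `V` of `F` contains
`k[X]` or `k[1/X]`, hence its integral closure in `F`; the primes of the integral closure in `L`
over the centre of `V` have decomposition and inertia groups which map onto those of the centre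
(`core_lift`, `core_inertia`), and their `l`-subgroups, `l ≠ p`, are metacyclic.
-/

set_option autoImplicit false

namespace Pool.Agent.Results.MP_7f581e_nt.LocallyCyclicForFree

open scoped Pointwise

/-- For every place (valuation ring `V ≠ L`) of `L` and every prime number `l ≠ p` the subgroups of
`l`-power order of the decomposition group of `V` are cyclic; in other words, its Sylow
`l`-subgroups are cyclic. -/
def LocallyCyclic (p : ℕ) (K L : Type) [Field K] [Field L] [Algebra K L] : Prop :=
  ∀ V : ValuationSubring L, V ≠ ⊤ → ∀ l : ℕ, l.Prime → l ≠ p → ∀ T : Subgroup Gal(L/K),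
    IsPGroup l T → T ≤ V.decompositionSubgroup K → IsCyclic T

/-- The number of elements of the residue field of the place of `K` below the place `V`. -/
noncomputable def normBelow (K : Type) {L : Type} [Field K] [Field L] [Algebra K L]
    (V : ValuationSubring L) : ℕ :=
  Nat.card (IsLocalRing.ResidueField (V.comap (algebraMap K L)))

/-- If a prime number `l ≠ p` divides the order of the inertia group of a place `V` of `L` then
`l ^ s` divides `N ^ n - 1`, where `N` is the number of residue classes of the place of `K` below
and `n = [L : K]`. -/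
def TameRestricted (p : ℕ) (K L : Type) [Field K] [Field L] [Algebra K L] (s : ℕ) : Prop :=
  ∀ V : ValuationSubring L, V ≠ ⊤ → ∀ l : ℕ, l.Prime → l ≠ p →
    l ∣ Nat.card (V.inertiaSubgroup K) → l ^ s ∣ normBelow K V ^ Module.finrank K L - 1

/-- The inertia groups of the places of `L` over the places of `K` with at most `B` residue classes
are `p`-groups. -/
def OnlyWildUpTo (p : ℕ) (K L : Type) [Field K] [Field L] [Algebra K L] (B : ℕ) : Prop :=
  ∀ V : ValuationSubring L, V ≠ ⊤ → normBelow K V ≤ B → IsPGroup p (V.inertiaSubgroup K)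

/-- `L` is a finite Galois extension of `K` with group isomorphic to `G`, with cyclic Sylow
`l`-subgroups of the decomposition groups and restricted tame ramification. -/
def Strong (p : ℕ) (K L G : Type) [Field K] [Field L] [Algebra K L] [Group G] (s : ℕ) : Prop :=
  FiniteDimensional K L ∧ IsGalois K L ∧ Nonempty (Gal(L/K) ≃* G) ∧ LocallyCyclic p K L ∧
    TameRestricted p K L s

/-- The finite group `G` occurs over `K`. -/
def Occurs (K G : Type) [Field K] [Group G] : Prop :=
  ∃ (L : Type) (_ : Field L) (_ : Algebra K L),
    FiniteDimensional K L ∧ IsGalois K L ∧ Nonempty (Gal(L/K) ≃* G)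

/-- `π` is a finite cover of `G` with abelian kernel of exponent dividing `|G| ^ (s + 3)` and with
the following property: whenever a finite Galois extension `L` of `K` has Galois group
isomorphic to `H`, the subextension `F` with group `G` given by `π` is strong. -/
def GoodCover (p : ℕ) (K : Type) [Field K] {H G : Type} [Group H] [Group G] (π : H →* G)
    (s : ℕ) : Prop :=
  Function.Surjective π ∧ (∀ a b : H, π a = 1 → π b = 1 → a * b = b * a) ∧
  (∀ a : H, π a = 1 → a ^ (Nat.card G ^ (s + 3)) = 1) ∧
  ∀ (L : Type) [Field L] [Algebra K L] [FiniteDimensional K L] [IsGalois K L]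
    (e : Gal(L/K) ≃* H) (F : IntermediateField K L),
    F = IntermediateField.fixedField (π.comp e.toMonoidHom).ker → Strong p K F G s

end Pool.Agent.Results.MP_7f581e_nt.LocallyCyclicForFree

namespace Pool.Agent.Results.MP_7f581e_nt.LocallyCyclicForFree

open Run7.h456.IG

theorem ker_pow {G : Type} [Group G] [Fintype G] [DecidableEq G] {m : ℕ} (a : Cov G m)
    (ha : Cov.pr a = 1) : a ^ m = 1 := by
  apply Cov.eq_of
  · intro x y
    rw [Cov.pow_v_of_one a ha, Cov.one_v, ZMod.natCast_self, zero_mul]
  · rw [Cov.pow_g, ← Cov.pr_apply, ha, one_pow, Cov.one_g]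

theorem finrank_eq {K L G : Type} [Field K] [Field L] [Algebra K L] [FiniteDimensional K L]
    [IsGalois K L] [Group G] [Fintype G] (h : Nonempty (Gal(L/K) ≃* G)) :
    Module.finrank K L = Fintype.card G := by
  obtain ⟨e⟩ := h
  rw [← IsGalois.card_aut_eq_finrank, Nat.card_congr e.toEquiv, Nat.card_eq_fintype_card]

theorem goodCover (p : ℕ) (k : Type) [Field k] [Finite k] [CharP k p] (hp : p.Prime) (G : Type)
    [Group G] [Fintype G] [DecidableEq G] (s : ℕ) :
    GoodCover p (RatFunc k) (Cov.pr : Cov G (Fintype.card G ^ (s + 3)) →* G) s := by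
  have : NeZero (Fintype.card G ^ (s + 3)) := ⟨pow_ne_zero _ Fintype.card_ne_zero⟩
  refine ⟨Cov.pr_surjective, Cov.ker_comm, ?_, ?_⟩
  · intro a ha
    rw [Nat.card_eq_fintype_card]
    exact ker_pow a ha
  · intro L _ _ _ _ e F hF
    obtain ⟨h1, ⟨h2⟩⟩ := nf_galois e Cov.pr Cov.pr_surjective F hF
    have hfr : Module.finrank (RatFunc k) F = Fintype.card G := finrank_eq ⟨h2.symm⟩
    have hm : ∀ l : ℕ, l.Prime → l ∣ Fintype.card G →
        l ^ (3 * (Fintype.card G).factorization l) ∣ Fintype.card G ^ (s + 3) := by
      intro l hl _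
      have e1 : l ^ (3 * (Fintype.card G).factorization l) =
          (l ^ (Fintype.card G).factorization l) ^ 3 := by rw [← pow_mul, mul_comm]
      rw [e1]
      exact (pow_dvd_pow_of_dvd (Nat.ordProj_dvd _ _) 3).trans (pow_dvd_pow _ (by omega))
    refine ⟨inferInstance, h1, ⟨h2.symm⟩, ?_, ?_⟩
    · intro V hV l hl hlp T hT hTV
      exact (ff_all e hm F hF V hV p hp).1 l hl hlp T hT hTV
    · intro V hV l hl hlp hl2
      rw [hfr]
      exact (ff_all e hm F hF V hV p hp).2.1 l s hl hlp
        (fun h => (pow_dvd_pow l (by omega)).trans (pow_dvd_pow_of_dvd h (s + 3))) hl2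

theorem strong_of (p : ℕ) (k : Type) [Field k] [Finite k] [CharP k p] (hp : p.Prime)
    (h : ∀ (G : Type) [Group G] [Finite G], Occurs (RatFunc k) G) (G : Type) [Group G] [Finite G]
    (s B : ℕ) : ∃ (L : Type) (_ : Field L) (_ : Algebra (RatFunc k) L),
      Strong p (RatFunc k) L G s ∧ OnlyWildUpTo p (RatFunc k) L B := by
  classical
  have hft : Fintype G := Fintype.ofFinite G
  set n := Fintype.card G with hn
  set t := max s (B ^ n) with ht
  have : NeZero (Fintype.card G ^ (t + 3)) := ⟨pow_ne_zero _ Fintype.card_ne_zero⟩
  obtain ⟨L, i1, i2, i3, i4, ⟨e⟩⟩ := h (Cov G (Fintype.card G ^ (t + 3)))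
  set F : IntermediateField (RatFunc k) L :=
    IntermediateField.fixedField ((Cov.pr).comp e.toMonoidHom).ker with hF
  obtain ⟨g1, g2, g3, g4, g5⟩ := (goodCover p k hp G t).2.2.2 L e F hF
  have hfr : Module.finrank (RatFunc k) F = n := finrank_eq g3
  refine ⟨F, inferInstance, inferInstance, ⟨g1, g2, g3, g4, ?_⟩, ?_⟩
  · intro V hV l hl hlp hl2
    exact (pow_dvd_pow l (le_max_left s (B ^ n))).trans (g5 V hV l hl hlp hl2)
  · intro V hV hVB
    have hm : ∀ l : ℕ, l.Prime → l ∣ Fintype.card G →
        l ^ (3 * (Fintype.card G).factorization l) ∣ Fintype.card G ^ (t + 3) := by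
      intro l hl _
      have e1 : l ^ (3 * (Fintype.card G).factorization l) =
          (l ^ (Fintype.card G).factorization l) ^ 3 := by rw [← pow_mul, mul_comm]
      rw [e1]
      exact (pow_dvd_pow_of_dvd (Nat.ordProj_dvd _ _) 3).trans (pow_dvd_pow _ (by omega))
    have hN : 1 < normBelow (RatFunc k) V := (ff_all e hm F hF V hV p hp).2.2
    have hfinI : Finite (V.inertiaSubgroup (RatFunc k)) := inferInstance
    have hcard : ∀ l : ℕ, l.Prime → l ∣ Nat.card (V.inertiaSubgroup (RatFunc k)) → l = p := by
      intro l hl hl2
      by_contra hlp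
      have h1 := g5 V hV l hl hlp hl2
      rw [hfr] at h1
      have hn0 : n ≠ 0 := Fintype.card_ne_zero
      have h2 : 1 < normBelow (RatFunc k) V ^ n := Nat.one_lt_pow hn0 hN
      have h3 := Nat.le_of_dvd (by omega) h1
      have h4 : normBelow (RatFunc k) V ^ n ≤ B ^ n := Nat.pow_le_pow_left hVB n
      have h5 : 2 ^ (B ^ n) ≤ l ^ t :=
        (Nat.pow_le_pow_left hl.two_le _).trans
          (Nat.pow_le_pow_right hl.pos (le_max_right s (B ^ n)))
      have h6 : B ^ n < 2 ^ (B ^ n) := Nat.lt_two_pow_self
      omega
    have h7 := Nat.eq_prime_pow_of_unique_prime_dvd (Nat.card_pos (α := V.inertiaSubgroup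
      (RatFunc k))).ne' (fun {l} hl hle => hcard l hl hle)
    exact IsPGroup.of_card h7

end Pool.Agent.Results.MP_7f581e_nt.LocallyCyclicForFree

open Pool.Agent.Results.MP_7f581e_nt.LocallyCyclicForFree in
theorem Pool.Agent.Results.MP_7f581e_nt.LocallyCyclicForFree.result :
    ∀ (p : ℕ) (k : Type) [Field k] [Finite k] [CharP k p], p.Prime →
    -- every finite group has good covers
    (∀ (G : Type) [Group G] [Finite G] (s : ℕ), ∃ (H : Type) (_ : Group H) (_ : Finite H)
      (π : H →* G), GoodCover p (RatFunc k) π s) ∧
    -- the inverse Galois problem over `k(X)` and its strong form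
    ((∀ (G : Type) [Group G] [Finite G], Occurs (RatFunc k) G) ↔
      ∀ (G : Type) [Group G] [Finite G] (s B : ℕ), ∃ (L : Type) (_ : Field L)
        (_ : Algebra (RatFunc k) L), Strong p (RatFunc k) L G s ∧
        OnlyWildUpTo p (RatFunc k) L B) := by
  intro p k _ _ _ hp
  classical
  refine ⟨?_, ?_, ?_⟩
  · intro G _ _ s
    have hft : Fintype G := Fintype.ofFinite G
    have : NeZero (Fintype.card G ^ (s + 3)) := ⟨pow_ne_zero _ Fintype.card_ne_zero⟩
    exact ⟨_, _, inferInstance, _, goodCover p k hp G s⟩
  · intro h G _ _ s B
    exact strong_of p k hp h G s B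
  · intro h G _ _
    obtain ⟨L, i1, i2, ⟨h1, h2, h3, -⟩, -⟩ := h G 0 0
    exact ⟨L, i1, i2, h1, h2, h3⟩
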