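import Mathlib
import Pool.Prelude.Def_F_b1b78ff3
import Pool.Agent.Run7.h16.UP.Main
import Pool.Agent.Run7.h16.UP.PGrp

/-!
# `F_p(X)`: universal kernels in characteristic `p`, closed under wreath products

`UnivP p` (file `Pool/Agent/Run7/h16/UP/Def.lean`) is the smallest class of groups which

* contains the class `Univ` of the starting result `MP_dadaab_nt` UniversalKernels,
* contains all finite groups all of whose composition factors satisfy `Factor p` (the class of the
  starting result `DefiningChar` on this page: groups of order `p`, `PSL_2(p ^ k)` with `p ^ k ≥ 4`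
  and `p = 2` or `k` odd, `PSL_n(p ^ k)` with `n ≥ 3` prime to `p ^ k - 1`, `PSp_2n(p ^ k)`, ...),
* contains the complete groups which are regular over the infinite fields of characteristic `p`,
* contains the wreath products `G ≀ S_n` of ALL finite groups `G` all of whose composition factors
  satisfy `Factor p` (for example all finite `p`-groups) and all `n ≥ 7`,
* contains the wreath products `T ≀ S_n` for all `n ≥ 7` if it contains the group `T` and the centre
  of `T` is trivial,
* is closed under direct products of groups with trivial centre, direct factors, characteristic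
  extensions and isomorphisms.

The theorem, for every prime `p`:

1. If a group `X` has a normal subgroup `N` of finite index which belongs to this class (no condition
   on the extension `1 → N → X → X / N → 1`), then `X` occurs over `κ(X)`, `κ` a finite field of
   characteristic `p` (for example `F_p`), if and only if `X / N` does; the same for all Hilbertian
   fields of characteristic `p`, and for regular extensions of `K(t)`, `K` any field of
   characteristic `p`. All groups of the class occur over `κ(X)`. Every embedding problem over `κ(X)`
   or over a Hilbertian field of characteristic `p` whose kernel belongs to the class has a proper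
   solution.
2. This applies to `N = G ≀ S_n` for every finite group `G` all of whose composition factors satisfy
   `Factor p`, in particular for every finite `p`-group `G`, and all `n ≥ 7`.
3. Towers: `StepP p K` is the smallest class of homomorphisms which contains the class `Step p K` of
   `DefiningChar` and all epimorphisms with kernel in `UnivP p`, and is closed under compositions and
   quotients. Let `L` be a finite Galois extension of `κ(X)` and
   `Gal(L/κ(X)) = W 0 ← W 1 ← W 2 ← ...` a sequence of homomorphisms in this class for `K = κ(X)`.
   Then `L` is contained in a Galois extension of `κ(X)` whose group is the inverse limit of the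
   `W i`, compatibly with restriction to `L`.

New compared with the two starting results is that the two classes can be mixed, and above all the
closure under wreath products. The groups `G ≀ S_n` of 2. are not in the class of `DefiningChar` (the
composition factors of `S_n` are not of characteristic `p`), and a group of the class `Univ` has
trivial centre and consists of wreath products with `n ≥ ((3 |G| + 2)!)^3` or of groups which are
regular over all infinite fields. The proof uses that the automorphisms of `S_n`, `n ≥ 7`, are inner
and that the base group of `T ≀ S_n`, `n ≥ 5`, is characteristic (files `Aut`, `Base`).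
-/

set_option autoImplicit false

open Nfff32c05
open Pool.Agent.H391R2 (Wr)
open Pool.Agent.H391R2.T4 (HilbField)
open Pool.Agent.TH444.TW (RegularOver)
open Pool.Agent.N600.UK (ProperSol)
open Pool.Agent.Y60.DC (CompIn)
open Pool.Agent.Y60.DCF (Factor)
open Run7.h16.UP (UnivP StepP)

namespace Pool.Agent.Results.MP_7f581e_nt.UniversalKernelsDefiningChar

/-- `X` and `Y` occur over the same fields of three kinds: `κ(X)` for the finite fields `κ` of
characteristic `p`, the Hilbertian fields of characteristic `p`, and (for regular extensions) `K(t)`
for the fields `K` of characteristic `p`. -/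
def OccursIff (p : ℕ) (X Y : Type) [Group X] [Group Y] : Prop :=
  (∀ (κ : Type) [Field κ] [Finite κ] [CharP κ p],
    IsRealizable (RatFunc κ) X ↔ IsRealizable (RatFunc κ) Y) ∧
  (∀ (K : Type) [Field K] [CharP K p], HilbField K → (IsRealizable K X ↔ IsRealizable K Y)) ∧
  (∀ (K : Type) [Field K] [CharP K p], RegularOver K X ↔ RegularOver K Y)

/-- All groups `X` with a normal subgroup `N` of finite index which is isomorphic to `T` occur over
the same fields as `X / N`. -/
def UniversalKernel (p : ℕ) (T : Type) [Group T] : Prop :=
  ∀ (X : Type) [Group X] (N : Subgroup X) [N.Normal], Nonempty (N ≃* T) → Finite (X ⧸ N) →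
    OccursIff p X (X ⧸ N)

/-- All embedding problems over `κ(X)`, `κ` a finite field of characteristic `p`, and over Hilbertian
fields of characteristic `p`, whose kernel is isomorphic to `T`, have a proper solution. -/
def EmbeddingsSolvable (p : ℕ) (T : Type) [Group T] : Prop :=
  (∀ (κ L X : Type) [Field κ] [Finite κ] [CharP κ p] [Field L] [Algebra (RatFunc κ) L]
    [FiniteDimensional (RatFunc κ) L] [IsGalois (RatFunc κ) L] [Group X]
    (α : X →* (L ≃ₐ[RatFunc κ] L)), Function.Surjective α → Nonempty (α.ker ≃* T) →
    ProperSol (RatFunc κ) L X α) ∧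
  (∀ (K L X : Type) [Field K] [CharP K p] [Field L] [Algebra K L] [FiniteDimensional K L]
    [IsGalois K L] [Group X] (α : X →* (L ≃ₐ[K] L)), HilbField K → Function.Surjective α →
    Nonempty (α.ker ≃* T) → ProperSol K L X α)

/-- The inverse limit of the sequence `W 0 ← W 1 ← W 2 ← ...`: the group of all sequences `x` with
`π i (x (i + 1)) = x i`. -/
abbrev InvLim {W : ℕ → Type} [∀ i, Group (W i)] (π : ∀ i, W (i + 1) →* W i) : Subgroup (∀ i, W i) :=
  Pool.Agent.TH15.IGP.Lim π

/-- The defining property of the inverse limit. -/
theorem mem_invLim {W : ℕ → Type} [∀ i, Group (W i)] (π : ∀ i, W (i + 1) →* W i)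
    (x : ∀ i, W i) : x ∈ InvLim π ↔ ∀ i, π i (x (i + 1)) = x i := Iff.rfl

/-- The finite Galois extension `L` of `K` is contained in a Galois extension `F` of `K` whose group
is the inverse limit of the `W i`: there is an isomorphism `γ` of `Gal(F/K)` with the inverse limit,
all of whose components are continuous (have open kernel), such that the action on `L` is
`σ ↦ e₀ (component of γ σ in W 0)`. -/
def OccursAbove (K L : Type) [Field K] [Field L] [Algebra K L] {W : ℕ → Type} [∀ i, Group (W i)]
    (π : ∀ i, W (i + 1) →* W i) (e₀ : W 0 ≃* (L ≃ₐ[K] L)) : Prop :=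
  ∃ (F : Type) (_ : Field F) (_ : Algebra K F) (_ : Algebra L F) (_ : IsScalarTower K L F)
    (_ : IsGalois K F) (γ : (F ≃ₐ[K] F) ≃* InvLim π),
    (∀ i, IsOpen {σ : F ≃ₐ[K] F | (γ σ).1 i = 1}) ∧
    ∀ (σ : F ≃ₐ[K] F) (x : L), σ (algebraMap L F x) = algebraMap L F (e₀ ((γ σ).1 0) x)

/-- All towers over `κ(X)` with steps in the class `StepP p (κ(X))` occur. -/
def Towers (p : ℕ) [Fact p.Prime] : Prop :=
  ∀ (κ : Type) [Field κ] [Finite κ] [CharP κ p] (L : Type) [Field L] [Algebra (RatFunc κ) L]
    [FiniteDimensional (RatFunc κ) L] [IsGalois (RatFunc κ) L] (W : ℕ → Type) [∀ i, Group (W i)]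
    (e₀ : W 0 ≃* (L ≃ₐ[RatFunc κ] L)) (π : ∀ i, W (i + 1) →* W i),
    (∀ i, StepP p (RatFunc κ) (π i)) → OccursAbove (RatFunc κ) L π e₀

theorem result : ∀ (p : ℕ) [Fact p.Prime],
    -- 1. kernels in the class
    (∀ (T : Type) [Group T], UnivP p T → UniversalKernel p T ∧ EmbeddingsSolvable p T ∧
      ∀ (κ : Type) [Field κ] [Finite κ] [CharP κ p], IsRealizable (RatFunc κ) T) ∧
    -- 2. wreath products
    (∀ (G : Type) [Group G] [Finite G], (CompIn (Factor p) G ∨ IsPGroup p G) →
      ∀ n : ℕ, 7 ≤ n → UniversalKernel p (Wr G n)) ∧
    -- 3. towers
    Towers p := by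
  intro p _
  have key : ∀ (T : Type) [Group T], UnivP p T → UniversalKernel p T := by
    intro T _ hT X _ N _ hN hfin
    refine ⟨?_, ?_, ?_⟩
    · intro κ _ _ _
      have := Run7.h16.UP.charP_ratFunc κ p
      exact hT.real (RatFunc κ) (Pool.Agent.TH377.IG.spec_ratFunc κ) X N hN hfin
    · intro K _ _ hK
      exact hT.real K (Pool.Agent.TH377.IG.spec_hilb hK) X N hN hfin
    · intro K _ _
      exact hT.regular K X N hN hfin
  refine ⟨?_, ?_, ?_⟩
  · intro T _ hT
    refine ⟨key T hT, ⟨?_, ?_⟩, ?_⟩
    · intro κ L X _ _ _ _ _ _ _ _ α hα hι
      have := Run7.h16.UP.charP_ratFunc κ p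
      exact hT.proper (RatFunc κ) (Pool.Agent.TH377.IG.spec_ratFunc κ) L X α hα hι
    · intro K L X _ _ _ _ _ _ _ α hK hα hι
      exact hT.proper K (Pool.Agent.TH377.IG.spec_hilb hK) L X α hα hι
    · intro κ _ _ _
      have := Run7.h16.UP.charP_ratFunc κ p
      exact hT.occurs (RatFunc κ) (Pool.Agent.TH377.IG.spec_ratFunc κ)
  · intro G _ _ hG n hn
    refine key _ (UnivP.wreath G ?_ n hn)
    rcases hG with hG | hG
    · exact hG
    · exact Run7.h16.UP.compIn_of_pgroup G hG
  · intro κ _ _ _ L _ _ _ _ W _ e₀ π hπ
    exact Run7.h16.UP.stepP_ratFunc κ W π hπ L e₀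

end Pool.Agent.Results.MP_7f581e_nt.UniversalKernelsDefiningChar
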